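import Mathlib

/-!
Circulant determinants over the dual numbers of a finite field.

Let `F` be a finite field with `q` elements and `gcd (n, q) ≠ 1`. Over the chain ring `F[ε]`
the determinant of a circulant `A + ε B` with `det A = 1` is `1 + ε tr (A⁻¹ B)`, and `A⁻¹ B` is a
circulant, so its trace is a multiple of `n`, hence zero. So the unit `1 + ε` is not the
determinant of an `n × n` circulant, whereas `1` is.
-/

set_option autoImplicit false

open DualNumber

namespace Pool.Agent.Results.MP_ad0c0d_al.DualNumbers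

/-- The circulant matrix with first row `a`: each row is the previous one shifted one place to the
right, so the entry `(i, j)` is `a (j - i)` (difference modulo `n`). -/
def cir {R : Type*} {n : ℕ} [NeZero n] (a : Fin n → R) : Matrix (Fin n) (Fin n) R :=
  Matrix.of fun i j => a (j - i)

/-- The number of `n × n` circulant matrices over `R` with determinant `x`. -/
noncomputable def c {R : Type*} [CommRing R] (n : ℕ) [NeZero n] (x : R) : ℕ :=
  Nat.card {a : Fin n → R // (cir a).det = x}

/-- The cyclic shift matrix. -/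
def P (F : Type*) [Field F] (n : ℕ) [NeZero n] : Matrix (Fin n) (Fin n) F :=
  (Equiv.toPEquiv (Equiv.addRight (1 : Fin n))).toMatrix

lemma P_apply {F : Type*} [Field F] {n : ℕ} [NeZero n] (i j : Fin n) :
    P F n i j = if i + 1 = j then 1 else 0 := by
  simp [P, PEquiv.toMatrix_apply]

lemma P_mul {F : Type*} [Field F] {n : ℕ} [NeZero n] (A : Matrix (Fin n) (Fin n) F)
    (i j : Fin n) : (P F n * A) i j = A (i + 1) j := by
  simp [Matrix.mul_apply, P_apply]

lemma mul_P {F : Type*} [Field F] {n : ℕ} [NeZero n] (A : Matrix (Fin n) (Fin n) F)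
    (i j : Fin n) : (A * P F n) i j = A i (j - 1) := by
  rw [Matrix.mul_apply, Finset.sum_eq_single (j - 1)]
  · simp [P_apply]
  · intro k _ hk
    rw [P_apply, if_neg, mul_zero]
    intro h
    exact hk (by rw [← h]; simp)
  · simp

lemma P_comm_cir {F : Type*} [Field F] {n : ℕ} [NeZero n] (a : Fin n → F) :
    P F n * cir a = cir a * P F n := by
  ext i j
  rw [P_mul, mul_P]
  simp only [cir, Matrix.of_apply]
  congr 1
  abel

lemma trace_eq_zero {F : Type*} [Field F] {n : ℕ} [NeZero n] (hn : (n : F) = 0)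
    (C : Matrix (Fin n) (Fin n) F) (hC : P F n * C = C * P F n) : C.trace = 0 := by
  have h1 : ∀ i : Fin n, C (i + 1) (i + 1) = C i i := by
    intro i
    have := congrFun (congrFun hC i) (i + 1)
    rw [P_mul, mul_P] at this
    rw [this]
    simp
  have h2 : ∀ (k : ℕ) (hk : k < n), C ⟨k, hk⟩ ⟨k, hk⟩ = C 0 0 := by
    intro k
    induction k with
    | zero => intro hk; rfl
    | succ k ih =>
      intro hk
      have hk' : k < n := Nat.lt_of_succ_lt hk
      have e : (⟨k + 1, hk⟩ : Fin n) = ⟨k, hk'⟩ + 1 := by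
        apply Fin.ext
        rw [Fin.val_add, Fin.val_one']
        simp only
        rw [Nat.add_mod_mod, Nat.mod_eq_of_lt hk]
      rw [e, h1, ih hk']
  have h3 : ∀ i : Fin n, C i i = C 0 0 := fun i => h2 i.val i.isLt
  rw [Matrix.trace]
  simp only [Matrix.diag_apply]
  rw [Finset.sum_congr rfl fun i _ => h3 i]
  simp [hn]

lemma det_ne {F : Type*} [Field F] {n : ℕ} [NeZero n] (hn : (n : F) = 0)
    (a : Fin n → F[ε]) : (cir a).det ≠ 1 + ε := by
  intro h
  set A : Matrix (Fin n) (Fin n) F := cir fun i => (a i).fst with hA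
  set B : Matrix (Fin n) (Fin n) F := cir fun i => (a i).snd with hB
  let φ : F →+* F[ε] := TrivSqZeroExt.inlHom F F
  have hM : cir a = φ.mapMatrix A + (ε : F[ε]) • φ.mapMatrix B := by
    ext i j <;> simp [cir, hA, hB, φ]
  have hdA : A.det = 1 := by
    have h1 : (TrivSqZeroExt.fstHom F F F).toRingHom.mapMatrix (cir a) = A := by
      ext i j
      simp [cir, hA]
    have h2 := congrArg (TrivSqZeroExt.fstHom F F F).toRingHom h
    rw [RingHom.map_det, h1] at h2
    rw [h2]
    simp
  have hu : IsUnit A.det := by rw [hdA]; exact isUnit_one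
  set C : Matrix (Fin n) (Fin n) F := A⁻¹ * B with hC
  have hAC : A * C = B := by
    rw [hC, ← mul_assoc, Matrix.mul_nonsing_inv A hu, one_mul]
  have hcomm : P F n * C = C * P F n := by
    have e1 : A * (P F n * C) = A * (C * P F n) := by
      rw [← mul_assoc, ← P_comm_cir, mul_assoc, hAC, ← mul_assoc, hAC, P_comm_cir]
    have e2 := congrArg (fun X => A⁻¹ * X) e1
    simpa only [Matrix.nonsing_inv_mul_cancel_left A _ hu] using e2
  have ht : C.trace = 0 := trace_eq_zero hn C hcomm
  have hM2 : cir a = φ.mapMatrix A * (1 + (ε : F[ε]) • φ.mapMatrix C) := by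
    rw [hM, ← hAC, map_mul, mul_add, mul_one, Matrix.mul_smul]
  rw [hM2, Matrix.det_mul, ← RingHom.map_det, hdA, map_one, one_mul,
    Matrix.det_one_add_smul, pow_two, eps_mul_eps, mul_zero, add_zero] at h
  have h3 : (φ.mapMatrix C).trace = 0 := by
    have : (φ.mapMatrix C).trace = φ C.trace := by
      simp [Matrix.trace]
    rw [this, ht, map_zero]
  rw [h3, zero_mul, add_zero] at h
  have h4 := congrArg TrivSqZeroExt.snd h
  simp at h4

/-- For every finite field `F` with `q` elements and every `n` with `gcd (n, q) ≠ 1`, the ring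
`F[ε]` (`ε ^ 2 = 0`) is a commutative finite chain ring with maximal ideal `(ε)`, nilpotency index
`2` and residue field `F`, and the counts of circulants with determinant `b ε ^ s` are different
for the units `b = 1` and `b = 1 + ε` and `s = 0`: the first is positive, the second zero. -/
theorem result (F : Type*) [Field F] [Finite F] (n : ℕ) [NeZero n]
    (hn : ¬ Nat.Coprime n (Nat.card F)) :
    Finite F[ε] ∧ (∀ I J : Ideal F[ε], I ≤ J ∨ J ≤ I) ∧
    (Ideal.span {(ε : F[ε])}).IsMaximal ∧ (ε : F[ε]) ≠ 0 ∧ (ε : F[ε]) ^ 2 = 0 ∧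
    Nonempty ((F[ε] ⧸ Ideal.span {(ε : F[ε])}) ≃+* F) ∧
    IsUnit (1 + ε : F[ε]) ∧ 0 < c n ((ε : F[ε]) ^ 0) ∧ c n ((1 + ε) * (ε : F[ε]) ^ 0) = 0 := by
  have hfin : Finite F[ε] := inferInstanceAs (Finite (F × F))
  have hn0 : (n : F) = 0 := by
    obtain ⟨p, hp⟩ := CharP.exists F
    have := Fintype.ofFinite F
    obtain ⟨k, hp1, hk⟩ := FiniteField.card F p
    by_contra h0
    apply hn
    rw [Nat.card_eq_fintype_card, hk]
    apply Nat.Coprime.pow_right
    rw [Nat.coprime_comm, Nat.Prime.coprime_iff_not_dvd hp1]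
    intro hd
    exact h0 ((CharP.cast_eq_zero_iff F p n).2 hd)
  refine ⟨hfin, ?_, isMaximal_span_singleton_eps, ?_, ?_, ?_, ?_, ?_, ?_⟩
  · intro I J
    rcases ideal_trichotomy I with rfl | rfl | rfl <;>
      rcases ideal_trichotomy J with rfl | rfl | rfl <;> simp
  · intro h
    have := congrArg TrivSqZeroExt.snd h
    simp at this
  · rw [pow_two, eps_mul_eps]
  · have hker : RingHom.ker (TrivSqZeroExt.fstHom F F F).toRingHom = Ideal.span {(ε : F[ε])} := by
      ext x
      rw [RingHom.mem_ker, Ideal.mem_span_singleton, ← fst_eq_zero_iff_eps_dvd]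
      rfl
    have hs : Function.Surjective (TrivSqZeroExt.fstHom F F F).toRingHom := fun x =>
      ⟨TrivSqZeroExt.inl x, by simp⟩
    exact ⟨(Ideal.quotEquivOfEq hker.symm).trans (RingHom.quotientKerEquivOfSurjective hs)⟩
  · exact isUnit_iff_exists_inv.2 ⟨1 - ε, by ext <;> simp⟩
  · rw [c, Nat.card_pos_iff]
    refine ⟨⟨⟨fun i => if i = 0 then 1 else 0, ?_⟩⟩, inferInstance⟩
    have : cir (fun i : Fin n => if i = 0 then (1 : F[ε]) else 0) = 1 := by
      apply Matrix.ext
      intro i j
      simp [cir, Matrix.one_apply, sub_eq_zero, eq_comm]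
    rw [this, Matrix.det_one, pow_zero]
  · rw [c, pow_zero, mul_one, Nat.card_eq_zero]
    left
    exact ⟨fun a => det_ne hn0 a.1 a.2⟩

end Pool.Agent.Results.MP_ad0c0d_al.DualNumbers
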